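import Pool.Agent.H98.SLN.Targets

/-!
# The slope near `α = 1`, row MCM: the conditions of the lower half
-/

set_option autoImplicit false

open MeasureTheory ProbabilityTheory Filter Topology
open scoped ENNReal
open Pool.Agent.H95 Pool.Agent.H95.Cop
open Pool.Agent.H55.CG (pz VV Mo)
open Pool.Agent.H98.CE (pc WB HK OBJ)
open Pool.Agent.H96.Cop (ex pk Wn chargeLaw)
open Pool.Agent.H99.CE (NX)
open Pool.Agent.H98.SLN

namespace Pool.Agent.H89.SLN

/-- the moments of the charges -/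
lemma exp_map (μ : Measure ℝ) [IsProbabilityMeasure μ]
    (hexp : ∀ t : ℝ, Integrable (fun z => Real.exp (t * z)) μ) (lam h : ℝ) (t : ℝ) :
    Integrable (fun z => Real.exp (t * z)) (μ.map (fun z => -2 * lam * (z + h))) := by
  rw [integrable_map_measure (by fun_prop) (by fun_prop)]
  have h1 := (hexp (t * (-2 * lam))).mul_const (Real.exp (t * (-2 * lam * h)))
  refine h1.congr (Filter.Eventually.of_forall fun z => ?_)
  simp only [Function.comp_apply]
  rw [← Real.exp_add]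
  congr 1
  ring

/-- the exponential moments of a cell -/
lemma AA_bd {ν : Measure ℝ} {ℓ : ℕ} {m c : ℝ}
    (h : ∀ u : ℝ, -1 ≤ u → u ≤ 2 → Real.exp (2 * u ^ 2 - 2 * u * m - c) ≤ Mo ν u ^ ℓ ∧
      Mo ν u ^ ℓ ≤ Real.exp (2 * u ^ 2 - 2 * u * m + c)) (u : ℝ) (h1 : -2 ≤ u) (h2 : u ≤ 4) :
    Real.exp (u / 2 + u ^ 2 / 2 - u * m - c) ≤ AA ν ℓ u ∧
      AA ν ℓ u ≤ Real.exp (u / 2 + u ^ 2 / 2 - u * m + c) := by
  obtain ⟨a, b⟩ := h (u / 2) (by linarith) (by linarith)
  unfold AA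
  constructor
  · calc Real.exp (u / 2 + u ^ 2 / 2 - u * m - c) =
          Real.exp (u / 2) * Real.exp (2 * (u / 2) ^ 2 - 2 * (u / 2) * m - c) := by
            rw [← Real.exp_add]
            congr 1
            ring
      _ ≤ Real.exp (u / 2) * Mo ν (u / 2) ^ ℓ := by gcongr
  · calc Real.exp (u / 2) * Mo ν (u / 2) ^ ℓ ≤
          Real.exp (u / 2) * Real.exp (2 * (u / 2) ^ 2 - 2 * (u / 2) * m + c) := by gcongr
      _ = Real.exp (u / 2 + u ^ 2 / 2 - u * m + c) := by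
            rw [← Real.exp_add]
            congr 1
            ring

/-- the inequalities between the numbers -/
lemma numbers {K0 x g m c P : ℝ} (hK : 1 ≤ K0) (hx : 0 < x) (hx1 : x * (20 * K0) ≤ 1)
    (hg : 1 / 2 ≤ g) (hg1 : g ≤ 1 / 2 + x ^ 4 / 2) (hm : m = 3 / 4 + x / (300 * K0))
    (_hc0 : 0 ≤ c) (hc : c ≤ x ^ 4 / (4000 * K0)) (hP : 0 < P) (hPx : P * x ≤ K0 + x) :
    g / 2 + g ^ 2 / 2 - g * m + c ≤ 0 ∧
    -1 / (120 * P) ≤ g / 2 + g ^ 2 / 2 - g * m - c ∧
    (g / 2) / 2 + (g / 2) ^ 2 / 2 - (g / 2) * m + c ≤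
      -1 / 50 + (g / 2 + g ^ 2 / 2 - g * m - c) ∧
    (2 * g) / 2 + (2 * g) ^ 2 / 2 - (2 * g) * m + c ≤ 1 ∧
    c ≤ 1 / (960 * P) := by
  have hK0 : 0 < K0 := by linarith
  have hx20 : x ≤ 1 / 20 := by nlinarith
  have hx3 : x ^ 3 ≤ 1 / 8000 := by
    have h := pow_le_pow_left₀ hx.le hx20 3
    norm_num at h ⊢
    linarith
  -- the small quantities in the unit `y = x / K0`
  set y : ℝ := x / K0 with hy
  have hy0 : 0 < y := by positivity
  have hyK : y * K0 = x := by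
    rw [hy]
    field_simp
  have hyx : y ≤ x := by nlinarith
  have hmy : m = 3 / 4 + y / 300 := by
    rw [hm, hy]
    field_simp
  -- `x ^ 4 ≤ y / 400`
  have hx4 : x ^ 4 ≤ y / 400 := by
    have h1 : x ^ 4 = x ^ 2 * (x * (x * 1)) := by ring
    have h2 : x * K0 ≤ 1 / 20 := by nlinarith
    have h3 : x ^ 4 * K0 ≤ x / 400 := by
      have h4 : x ^ 4 * K0 = x * (x ^ 2 * (x * K0)) := by ring
      have h5 : x ^ 2 ≤ 1 / 400 := by nlinarith
      have h6 : x ^ 2 * (x * K0) ≤ 1 / 400 * (1 / 20) := by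
        have : 0 ≤ x * K0 := by positivity
        nlinarith [sq_nonneg x]
      rw [h4]
      nlinarith
    have h7 : x ^ 4 * K0 ≤ (y / 400) * K0 := by
      have : (y / 400) * K0 = x / 400 := by
        rw [div_mul_eq_mul_div, hyK]
      linarith
    exact le_of_mul_le_mul_right h7 hK0
  have hcy : c ≤ y / 4000 * (1 / 8000) := by
    have h1 : x ^ 4 / (4000 * K0) = y / 4000 * x ^ 3 := by
      rw [hy]
      field_simp
    rw [h1] at hc
    have h2 : y / 4000 * x ^ 3 ≤ y / 4000 * (1 / 8000) := by gcongr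
    linarith
  have hy1 : y ≤ 1 / 20 := hyx.trans hx20
  have hPy : P * y ≤ 21 / 20 := by
    have h1 : P * y * K0 ≤ 21 / 20 * K0 := by
      have h2 : P * y * K0 = P * x := by
        rw [mul_assoc, hyK]
      rw [h2]
      nlinarith
    exact le_of_mul_le_mul_right h1 hK0
  have hgs : g ≤ 1 / 2 + y / 800 := by linarith
  have hg0 : 0 < g := by linarith
  have hg2 : g ≤ 51 / 100 := by linarith
  refine ⟨?_, ?_, ?_, ?_, ?_⟩
  · have h1 : g / 2 + g ^ 2 / 2 - g * m + c = -(g * (m - 1 / 2 - g / 2)) + c := by ring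
    rw [h1]
    have h2 : y / 400 ≤ m - 1 / 2 - g / 2 := by
      rw [hmy]
      linarith
    have h3 : 1 / 2 * (y / 400) ≤ g * (m - 1 / 2 - g / 2) := by gcongr
    linarith
  · have h1 : g / 2 + g ^ 2 / 2 - g * m - c = -(g * (m - 1 / 2 - g / 2)) - c := by ring
    rw [h1]
    have h2 : m - 1 / 2 - g / 2 ≤ y / 300 := by
      rw [hmy]
      linarith
    have h3 : g * (m - 1 / 2 - g / 2) ≤ 51 / 100 * (y / 300) := by
      have h4 : g * (m - 1 / 2 - g / 2) ≤ g * (y / 300) := by gcongr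
      have h5 : g * (y / 300) ≤ 51 / 100 * (y / 300) := by gcongr
      linarith
    have h4 : y / 126 ≤ 1 / (120 * P) := by
      rw [div_le_div_iff₀ (by norm_num) (by positivity)]
      nlinarith
    have h5 : -1 / (120 * P) = -(1 / (120 * P)) := by ring
    rw [h5]
    linarith
  · have h1 : (g / 2) / 2 + (g / 2) ^ 2 / 2 - (g / 2) * m + c -
        (g / 2 + g ^ 2 / 2 - g * m - c) = -(g * (3 * g / 8 + 1 / 4 - m / 2)) + 2 * c := by ring
    have h2 : 1 / 17 ≤ 3 * g / 8 + 1 / 4 - m / 2 := by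
      rw [hmy]
      linarith
    have h3 : 1 / 2 * (1 / 17) ≤ g * (3 * g / 8 + 1 / 4 - m / 2) := by gcongr
    linarith
  · have h1 : (2 * g) / 2 + (2 * g) ^ 2 / 2 - (2 * g) * m + c = g * (1 + 2 * g - 2 * m) + c := by
      ring
    rw [h1]
    have h2 : 1 + 2 * g - 2 * m ≤ 1 := by
      rw [hmy]
      linarith
    have h3 : g * (1 + 2 * g - 2 * m) ≤ g * 1 := by gcongr
    linarith
  · have h4 : y / 1008 ≤ 1 / (960 * P) := by
      rw [div_le_div_iff₀ (by norm_num) (by positivity)]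
      nlinarith
    linarith

theorem pf_MCM (hMOQ : T_MOQ) : T_MCM := by
  intro K0 hK
  have hK0 : 0 < K0 := by linarith
  refine ⟨(1 / (20 * K0)) ^ 4, by positivity, ?_⟩
  intro μ _ hexp hm1 hm2
  obtain ⟨C, lam1, hC, hlam1, hM⟩ := hMOQ μ hexp hm1 hm2
  refine ⟨min lam1 ((1 / (4000 * K0 * C)) ^ 2), by positivity, ?_⟩
  intro lam δ α hlam hlam0 hδ hδ3 hα0 hα1 hlδ
  have hl1 : lam < lam1 := hlam0.trans_le (min_le_left _ _)
  have hl2 : lam < (1 / (4000 * K0 * C)) ^ 2 := hlam0.trans_le (min_le_right _ _)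
  have hC0 : 0 < C := by linarith
  set x : ℝ := δ ^ (1 / 4 : ℝ) with hx
  have hx0 : 0 < x := Real.rpow_pos_of_pos hδ _
  have hx4 : x ^ 4 = δ := by
    rw [hx, ← Real.rpow_natCast, ← Real.rpow_mul hδ.le]
    norm_num
  have hx1' : x < 1 / (20 * K0) := by
    have h1 : x ^ 4 < (1 / (20 * K0)) ^ 4 := by rw [hx4]; exact hδ3
    exact lt_of_pow_lt_pow_left₀ 4 (by positivity) h1
  have hx1 : x * (20 * K0) ≤ 1 := by
    have := (lt_div_iff₀ (by positivity : (0 : ℝ) < 20 * K0)).1 hx1'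
    exact this.le
  have hx20 : x ≤ 1 / 20 := by nlinarith
  -- `C lam`
  have hsq : Real.sqrt lam * Real.sqrt lam = lam := Real.mul_self_sqrt hlam.le
  have hs0 : 0 ≤ Real.sqrt lam := Real.sqrt_nonneg _
  have hs1 : Real.sqrt lam ≤ δ := by
    rw [Real.sqrt_le_left hδ.le]
    exact hlδ
  have hs2 : Real.sqrt lam ≤ 1 / (4000 * K0 * C) := by
    rw [Real.sqrt_le_left (by positivity)]
    exact hl2.le
  have hc : C * lam ≤ x ^ 4 / (4000 * K0) := by
    rw [hx4]
    calc C * lam = C * (Real.sqrt lam * Real.sqrt lam) := by rw [hsq]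
      _ ≤ C * (1 / (4000 * K0 * C) * δ) := by gcongr
      _ = δ / (4000 * K0) := by field_simp
  -- the exponent
  have hδ1 : δ ≤ 1 := by
    rw [← hx4]
    exact pow_le_one₀ hx0.le (by linarith)
  have hg : 1 / 2 ≤ 1 / (1 + α) := by
    rw [div_le_div_iff₀ (by norm_num) (by linarith)]
    linarith
  have hg1 : 1 / (1 + α) ≤ 1 / 2 + x ^ 4 / 2 := by
    rw [hx4, div_le_iff₀ (by linarith)]
    nlinarith
  have hm : (3 / 4 + x / (300 * K0) : ℝ) ≤ 1 := by
    have : x / (300 * K0) ≤ 1 / 4 := by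
      rw [div_le_iff₀ (by positivity)]
      nlinarith
    linarith
  have hm' : (1 / 2 : ℝ) ≤ 3 / 4 + x / (300 * K0) := by
    have : 0 ≤ x / (300 * K0) := by positivity
    linarith
  -- the number of cells
  have hN0 : 0 < K0 * δ ^ (-(1 / 4 : ℝ)) := by positivity
  have hNx : δ ^ (-(1 / 4 : ℝ)) = x⁻¹ := by
    rw [Real.rpow_neg hδ.le]
  have hP0 : (0 : ℝ) < (NN K0 δ : ℝ) := by
    unfold NN
    exact_mod_cast Nat.ceil_pos.2 hN0
  have hPx : (NN K0 δ : ℝ) * x ≤ K0 + x := by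
    have h1 : (NN K0 δ : ℝ) < K0 * δ ^ (-(1 / 4 : ℝ)) + 1 := by
      unfold NN
      exact Nat.ceil_lt_add_one hN0.le
    rw [hNx] at h1
    calc (NN K0 δ : ℝ) * x ≤ (K0 * x⁻¹ + 1) * x := by gcongr
      _ = K0 + x := by field_simp
  obtain ⟨hA, hT⟩ := hM lam (3 / 4 + x / (300 * K0)) hlam hl1 hm' hm
  obtain ⟨n1, n2, n3, n4, n5⟩ := numbers hK hx0 hx1 hg hg1 rfl (by positivity : 0 ≤ C * lam) hc
    hP0 hPx
  have hx4' : x ^ 4 / 2 ≤ 1 / 6 := by
    have h1 : x ^ 4 ≤ x := by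
      have := pow_le_of_le_one hx0.le (by linarith : x ≤ 1) (by norm_num : 4 ≠ 0)
      exact this
    linarith
  obtain ⟨t1, t2, t4⟩ := hT (1 / (1 + α)) hg (by linarith)
  have hg2 : 1 / (1 + α) ≤ 2 / 3 := by linarith
  have hfm : Measurable (fun z : ℝ => -2 * lam * (z + (3 / 4 + x / (300 * K0)) * lam)) := by
    fun_prop
  have b1 := AA_bd hA (1 / (1 + α)) (by linarith) (by linarith)
  have b2 := AA_bd hA (1 / (1 + α) / 2) (by linarith) (by linarith)
  have b3 := AA_bd hA (2 * (1 / (1 + α))) (by linarith) (by linarith)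
  refine
    { prob := Measure.isProbabilityMeasure_map hfm.aemeasurable
      exp := exp_map μ hexp lam ((3 / 4 + x / (300 * K0)) * lam)
      a1 := ?_
      a2 := ?_
      a3 := ?_
      a4 := ?_
      t1 := t1
      t2 := t2.trans n5
      t4 := t4.trans n5 }
  · exact b1.2.trans (Real.exp_le_one_iff.2 n1)
  · exact (Real.exp_le_exp.2 n2).trans b1.1
  · refine b2.2.trans ((Real.exp_le_exp.2 n3).trans ?_)
    rw [Real.exp_add]
    exact mul_le_mul_of_nonneg_left b1.1 (Real.exp_pos _).le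
  · exact b3.2.trans (Real.exp_le_exp.2 n4)

end Pool.Agent.H89.SLN
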